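import Pool.Agent.Lib.H24B.B5

/-!
# H96T, file T1: plane spanning trees with prescribed degrees on one side

If the complexes of plane subsets of `A ×ˢ B`, `A`, `B` nonempty, are acyclic mod 2 (`H24B.Acyc`), and
`d : β → ℕ`, `d b ≥ 1`, `∑ d b = |α| + |β| - 1`, then there is a plane spanning tree of the complete
bipartite graph on `α`, `β` in which every `b` has degree `d b`.

Weights `x a = 1`, `x b = d b - 1 + 1 / |β|`.
-/

set_option autoImplicit false
set_option linter.unusedSectionVars false

namespace H96T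

open Finset H98P H24B

variable {α β : Type*} [Fintype α] [Fintype β] [DecidableEq α] [DecidableEq β]

/-- The weights. -/
noncomputable def wt (d : β → ℕ) : α ⊕ β → ℝ :=
  Sum.elim (fun _ => 1) (fun b => (d b : ℝ) - 1 + 1 / Fintype.card β)

/-- The graph of a set of edges of `α × β`. -/
def gr (P : Finset (α × β)) : SimpleGraph (α ⊕ β) where
  Adj u v := ∃ e ∈ P, (u = Sum.inl e.1 ∧ v = Sum.inr e.2) ∨ (u = Sum.inr e.2 ∧ v = Sum.inl e.1)
  symm := ⟨by
    rintro u v ⟨e, he, h⟩
    exact ⟨e, he, h.elim (fun h => Or.inr ⟨h.2, h.1⟩) fun h => Or.inl ⟨h.2, h.1⟩⟩⟩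
  loopless := ⟨by
    rintro u ⟨e, he, h | h⟩
    · obtain ⟨h1, h2⟩ := h
      rw [h1] at h2
      exact Sum.inl_ne_inr h2
    · obtain ⟨h1, h2⟩ := h
      rw [h1] at h2
      exact Sum.inr_ne_inl h2⟩

theorem gr_edge (P : Finset (α × β)) :
    (gr P).edgeSet = (fun e : α × β => s((Sum.inl e.1 : α ⊕ β), Sum.inr e.2)) '' (P : Set (α × β)) := by
  ext z
  induction z with
  | _ u v =>
    rw [SimpleGraph.mem_edgeSet]
    constructor
    · rintro ⟨e, he, ⟨rfl, rfl⟩ | ⟨rfl, rfl⟩⟩
      · exact ⟨e, he, rfl⟩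
      · exact ⟨e, he, Sym2.eq_swap⟩
    · rintro ⟨e, he, h⟩
      rcases Sym2.eq_iff.1 h with ⟨h1, h2⟩ | ⟨h1, h2⟩
      · exact ⟨e, he, Or.inl ⟨h1.symm, h2.symm⟩⟩
      · exact ⟨e, he, Or.inr ⟨h2.symm, h1.symm⟩⟩

theorem edge_inj : Function.Injective (fun e : α × β => s((Sum.inl e.1 : α ⊕ β), Sum.inr e.2)) := by
  rintro ⟨a, b⟩ ⟨a', b'⟩ h
  rcases Sym2.eq_iff.1 h with ⟨h1, h2⟩ | ⟨h1, h2⟩
  · rw [Sum.inl.injEq] at h1
    rw [Sum.inr.injEq] at h2
    exact Prod.ext h1 h2
  · exact absurd h1 Sum.inl_ne_inr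

theorem gr_card (P : Finset (α × β)) : Nat.card (gr P).edgeSet = P.card := by
  rw [gr_edge, Nat.card_image_of_injective edge_inj, Nat.card_coe_set_eq, Set.ncard_coe_finset]

/-- A part closed under the edges is balanced. -/
theorem part_bal {P : Finset (α × β)} {w : α × β → ℝ} {x : α ⊕ β → ℝ}
    (hx : ∑ e ∈ P, w e • vec e = x) (A : Finset α) (B : Finset β)
    (h : ∀ e ∈ P, e.1 ∈ A ↔ e.2 ∈ B) :
    ∑ a ∈ A, x (Sum.inl a) = ∑ b ∈ B, x (Sum.inr b) := by
  rw [← hx]
  simp only [comb_apply]
  rw [Finset.sum_comm, Finset.sum_comm (s := B)]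
  refine Finset.sum_congr rfl fun e he => ?_
  rw [← Finset.mul_sum, ← Finset.mul_sum]
  simp only [vec_inl, vec_inr]
  rw [Finset.sum_ite_eq' A e.1, Finset.sum_ite_eq' B e.2]
  by_cases h1 : e.1 ∈ A
  · rw [if_pos h1, if_pos ((h e he).1 h1)]
  · rw [if_neg h1, if_neg fun h2 => h1 ((h e he).2 h2)]

/-- The balanced parts of the weights are trivial. -/
theorem wt_gen [Nonempty β] {d : β → ℕ} (hd : ∑ b, d b + 1 = Fintype.card α + Fintype.card β)
    (A : Finset α) (B : Finset β)
    (h : ∑ a ∈ A, wt (α := α) d (Sum.inl a) = ∑ b ∈ B, wt (α := α) d (Sum.inr b)) :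
    (A = ∅ ∧ B = ∅) ∨ (A = univ ∧ B = univ) := by
  have hm : 0 < Fintype.card β := Fintype.card_pos
  have hm' : (0 : ℝ) < Fintype.card β := by exact_mod_cast hm
  have h1 : ∑ a ∈ A, wt (α := α) d (Sum.inl a) = A.card := by
    unfold wt
    simp
  have h2 : ∑ b ∈ B, wt (α := α) d (Sum.inr b) = ∑ b ∈ B, (d b : ℝ) - B.card + B.card / Fintype.card β := by
    unfold wt
    simp only [Sum.elim_inr]
    rw [Finset.sum_add_distrib, Finset.sum_sub_distrib]
    simp
    ring
  rw [h1, h2] at h
  have h3 : Fintype.card β * A.card + Fintype.card β * B.card =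
      Fintype.card β * ∑ b ∈ B, d b + B.card := by
    have h4 : (Fintype.card β : ℝ) * A.card + Fintype.card β * B.card =
        Fintype.card β * ∑ b ∈ B, (d b : ℝ) + B.card := by
      rw [h]
      field_simp
      ring
    exact_mod_cast h4
  have h5 : Fintype.card β ∣ B.card := by
    have h6 : Fintype.card β ∣ Fintype.card β * ∑ b ∈ B, d b + B.card := by
      rw [← h3]
      exact Dvd.dvd.add (dvd_mul_right _ _) (dvd_mul_right _ _)
    exact (Nat.dvd_add_right (dvd_mul_right _ _)).1 h6
  have h7 : B.card ≤ Fintype.card β := Finset.card_le_univ B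
  rcases Nat.eq_zero_or_pos B.card with h8 | h8
  · left
    have h9 : B = ∅ := Finset.card_eq_zero.1 h8
    refine ⟨?_, h9⟩
    rw [h9] at h3
    simp only [Finset.card_empty, mul_zero, add_zero, Finset.sum_empty] at h3
    rcases Nat.mul_eq_zero.1 h3 with h10 | h10
    · omega
    · exact Finset.card_eq_zero.1 h10
  · right
    have h9 : B.card = Fintype.card β := le_antisymm h7 (Nat.le_of_dvd h8 h5)
    have h10 : B = univ := Finset.eq_univ_of_card B h9
    refine ⟨?_, h10⟩
    apply Finset.eq_univ_of_card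
    rw [h10] at h3
    rw [Finset.card_univ] at h3
    have h11 : Fintype.card β * (A.card + Fintype.card β) =
        Fintype.card β * (Fintype.card α + Fintype.card β) := by
      rw [← hd, mul_add, h3]
      ring
    have := Nat.eq_of_mul_eq_mul_left hm h11
    omega

/-- A set of edges whose cone (or span) contains the weights is connected. -/
theorem conn_of_comb [Nonempty α] [Nonempty β] {d : β → ℕ}
    (hd : ∑ b, d b + 1 = Fintype.card α + Fintype.card β) {P : Finset (α × β)} {w : α × β → ℝ}
    (hx : ∑ e ∈ P, w e • vec e = wt (α := α) d) : (gr P).Connected := by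
  classical
  rw [SimpleGraph.connected_iff]
  refine ⟨fun u v => ?_, inferInstance⟩
  have hcl : ∀ e ∈ P, ((gr P).Reachable u (Sum.inl e.1) ↔ (gr P).Reachable u (Sum.inr e.2)) := by
    intro e he
    have h1 : (gr P).Adj (Sum.inl e.1) (Sum.inr e.2) := ⟨e, he, Or.inl ⟨rfl, rfl⟩⟩
    exact ⟨fun h => h.trans h1.reachable, fun h => h.trans h1.symm.reachable⟩
  have h1 := part_bal hx (univ.filter fun a => (gr P).Reachable u (Sum.inl a))
    (univ.filter fun b => (gr P).Reachable u (Sum.inr b)) (by
      intro e he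
      rw [Finset.mem_filter, Finset.mem_filter]
      simp only [Finset.mem_univ, true_and]
      exact hcl e he)
  rcases wt_gen hd _ _ h1 with ⟨h2, h3⟩ | ⟨h2, h3⟩
  · exfalso
    have h4 : (gr P).Reachable u u := SimpleGraph.Reachable.refl u
    rcases u with a | b
    · have : a ∈ univ.filter fun a' => (gr P).Reachable (Sum.inl a) (Sum.inl a') :=
        Finset.mem_filter.2 ⟨Finset.mem_univ _, h4⟩
      rw [h2] at this
      exact absurd this (Finset.notMem_empty _)
    · have : b ∈ univ.filter fun b' => (gr P).Reachable (Sum.inr b) (Sum.inr b') :=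
        Finset.mem_filter.2 ⟨Finset.mem_univ _, h4⟩
      rw [h3] at this
      exact absurd this (Finset.notMem_empty _)
  · rcases v with a | b
    · have h4 := Finset.mem_univ a
      rw [← h2] at h4
      exact (Finset.mem_filter.1 h4).2
    · have h4 := Finset.mem_univ b
      rw [← h3] at h4
      exact (Finset.mem_filter.1 h4).2

/-- TREES WITH PRESCRIBED DEGREES ON ONE SIDE. -/
theorem tree_deg [Nonempty α] [Nonempty β] {cross : α × β → α × β → Prop}
    (hA : ∀ a b b', ¬ cross (a, b) (a, b')) (hB : ∀ a a' b, ¬ cross (a, b) (a', b))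
    (hac : Acyc cross) (d : β → ℕ) (h1 : ∀ b, 1 ≤ d b)
    (hd : ∑ b, d b + 1 = Fintype.card α + Fintype.card β) :
    ∃ P : Finset (α × β), Plane cross P ∧ (gr P).IsTree ∧
      P.card + 1 = Fintype.card α + Fintype.card β ∧
      ∀ b, (P.filter fun e => e.2 = b).card = d b := by
  classical
  have hm : 0 < Fintype.card β := Fintype.card_pos
  have hk : 0 < Fintype.card α := Fintype.card_pos
  have hm' : (0 : ℝ) < Fintype.card β := by exact_mod_cast hm
  obtain ⟨c, hs, ho, hr⟩ := chains hA hB hac
  have hpos : Pos (univ : Finset α) (univ : Finset β) (wt d) := by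
    refine ⟨fun a _ => ?_, fun b _ => ?_⟩
    · show (0 : ℝ) < 1
      exact one_pos
    · show (0 : ℝ) < (d b : ℝ) - 1 + 1 / Fintype.card β
      have h2 : (1 : ℝ) ≤ d b := by exact_mod_cast h1 b
      have h3 : (0 : ℝ) < 1 / Fintype.card β := by positivity
      linarith
  have hbal : Bal (univ : Finset α) (univ : Finset β) (wt d) := by
    refine ⟨fun a ha => absurd (Finset.mem_univ a) ha, fun b hb => absurd (Finset.mem_univ b) hb, ?_⟩
    have h2 : ∑ b : β, wt (α := α) d (Sum.inr b) = ∑ b : β, (d b : ℝ) - Fintype.card β + 1 := by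
      unfold wt
      simp only [Sum.elim_inr]
      rw [Finset.sum_add_distrib, Finset.sum_sub_distrib]
      simp [Finset.card_univ, hm'.ne']
    have h3 : ∑ a : α, wt (α := α) d (Sum.inl a) = Fintype.card α := by
      unfold wt
      simp
    rw [h2, h3]
    have h4 : ∑ b, (d b : ℝ) + 1 = (Fintype.card α : ℝ) + Fintype.card β := by exact_mod_cast hd
    linarith
  have hgen : GenP (univ : Finset α) (univ : Finset β) (wt d) := by
    intro σ _ hc w hw
    have h2 := (conn_of_comb hd hw).card_vert_le_card_edgeSet_add_one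
    rw [gr_card, Nat.card_eq_fintype_card, Fintype.card_sum] at h2
    rw [Finset.card_univ, Finset.card_univ] at hc
    omega
  have hodd := count hs ho hr (Fintype.card α + Fintype.card β - 1) univ univ Finset.univ_nonempty
    Finset.univ_nonempty (by rw [Finset.card_univ, Finset.card_univ]; omega) (wt d) hpos hbal hgen
  have hex : ∃ σ, c univ univ σ * door vec (Fintype.card α + Fintype.card β - 1) (wt d) σ ≠ 0 := by
    by_contra hcon
    push Not at hcon
    rw [Finset.sum_eq_zero fun σ _ => hcon σ] at hodd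
    exact zero_ne_one hodd
  obtain ⟨P, hP⟩ := hex
  have hdo : door vec (Fintype.card α + Fintype.card β - 1) (wt d) P ≠ 0 := right_ne_zero_of_mul hP
  have hc : c univ univ P ≠ 0 := left_ne_zero_of_mul hP
  obtain ⟨w, hw0, hw⟩ : InCone vec P (wt d) := by
    by_contra hcon
    exact hdo (door_zero hcon)
  obtain ⟨_, _, _, hpl, hcard⟩ := hs _ _ _ hc
  rw [Finset.card_univ, Finset.card_univ] at hcard
  refine ⟨P, hpl, ?_, hcard, ?_⟩
  · rw [SimpleGraph.isTree_iff_connected_and_card]
    refine ⟨conn_of_comb hd hw, ?_⟩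
    rw [gr_card, Nat.card_eq_fintype_card, Fintype.card_sum]
    exact hcard
  · have hw1 : ∀ e ∈ P, w e ≤ 1 := by
      intro e he
      have h2 : ∑ e' ∈ P, w e' * vec e' (Sum.inl e.1) = 1 := by
        rw [← comb_apply, hw]
        rfl
      rw [← h2]
      have h3 : w e = w e * vec e (Sum.inl e.1) := by
        rw [vec_inl, if_pos rfl, mul_one]
      rw [h3]
      refine Finset.single_le_sum (f := fun e' => w e' * vec e' (Sum.inl e.1)) (fun e' he' => ?_) he
      refine mul_nonneg (hw0 e' he') ?_
      rw [vec_inl]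
      split_ifs <;> norm_num
    have hge : ∀ b, d b ≤ (P.filter fun e => e.2 = b).card := by
      intro b
      have h2 : ∑ e ∈ P, w e * vec e (Sum.inr b) = (d b : ℝ) - 1 + 1 / Fintype.card β := by
        rw [← comb_apply, hw]
        rfl
      have h3 : ∑ e ∈ P, w e * vec e (Sum.inr b) = ∑ e ∈ P.filter (fun e => e.2 = b), w e := by
        rw [Finset.sum_filter]
        refine Finset.sum_congr rfl fun e _ => ?_
        rw [vec_inr]
        by_cases h4 : e.2 = b
        · rw [if_pos h4.symm, if_pos h4, mul_one]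
        · rw [if_neg fun h5 => h4 h5.symm, if_neg h4, mul_zero]
      have h5 : ∑ e ∈ P.filter (fun e => e.2 = b), w e ≤ (P.filter fun e => e.2 = b).card := by
        have h6 := Finset.sum_le_card_nsmul (P.filter fun e => e.2 = b) w 1
          fun e he => hw1 e (Finset.mem_filter.1 he).1
        rw [nsmul_eq_mul, mul_one] at h6
        exact h6
      have h7 : (0 : ℝ) < 1 / Fintype.card β := by positivity
      have h8 : (d b : ℝ) < (P.filter fun e => e.2 = b).card + 1 := by
        rw [h3] at h2
        linarith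
      have h9 : d b < (P.filter fun e => e.2 = b).card + 1 := by exact_mod_cast h8
      omega
    have hsum : ∑ b, d b = ∑ b, (P.filter fun e => e.2 = b).card := by
      rw [← Finset.card_eq_sum_card_fiberwise (f := Prod.snd) (t := univ) (fun e _ => Finset.mem_univ _)]
      omega
    have h2 := (Finset.sum_eq_sum_iff_of_le fun b _ => hge b).1 hsum
    exact fun b => (h2 b (Finset.mem_univ b)).symm

end H96T
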