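import Pool.Agent.Lib.H96T.T1
import Pool.Agent.Lib.H98Z.S4

/-!
# H96T, file T2: plane bichromatic spanning trees with prescribed degrees, from (Z)

`tree_of_hz`: if (Z) holds for all vertex sets, `A`, `B` are nonempty, disjoint, with union the whole
vertex set and `∑ d b = |V| - 1`, `d b ≥ 1` on `B`, then there is a plane spanning tree of edges between
`A` and `B` in which each `b ∈ B` has degree `d b`.
-/

set_option autoImplicit false
set_option linter.unusedSectionVars false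

namespace H96T

open Finset H98P H98Z

variable {V : Type*} [Fintype V] [DecidableEq V]

/-- (Z) gives the hypothesis of the bipartite degree half. -/
theorem acyc_of_hz {cross : Sym2 V → Sym2 V → Prop} (hsymm : ∀ e f, cross e f → cross f e)
    (hZ : ∀ W : Finset V, HZ cross W) {A B : Finset V} (hAB : Disjoint A B) :
    H24B.Acyc (fun p q : A × B => cross s(p.1.1, p.2.1) s(q.1.1, q.2.1)) := by
  classical
  have hinj : Function.Injective (fun p : A × B => s(p.1.1, p.2.1)) := by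
    rintro ⟨⟨a, ha⟩, ⟨b, hb⟩⟩ ⟨⟨a', ha'⟩, ⟨b', hb'⟩⟩ h1
    rw [Sym2.eq_iff] at h1
    rcases h1 with ⟨h2, h3⟩ | ⟨h2, h3⟩
    · simp only at h2 h3
      subst h2 h3
      rfl
    · simp only at h2 h3
      subst h2 h3
      exact absurd hb' (disjoint_left.1 hAB ha)
  intro A' B' hA' hB'
  have h1 : Disjoint (A'.map (Function.Embedding.subtype _))
      (B'.map (Function.Embedding.subtype _)) := by
    rw [disjoint_left]
    intro x hx hy
    obtain ⟨a, _, rfl⟩ := mem_map.1 hx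
    obtain ⟨b, _, hb⟩ := mem_map.1 hy
    have h2 : (b : V) = a := hb
    exact disjoint_left.1 hAB a.2 (h2 ▸ b.2)
  have h2 := acy_br hsymm h1 (hA'.map) (hB'.map) (hZ _)
  have h3 : (A' ×ˢ B').map ⟨fun p : A × B => s(p.1.1, p.2.1), hinj⟩ =
      br (A'.map (Function.Embedding.subtype _)) (B'.map (Function.Embedding.subtype _)) := by
    ext e
    rw [mem_map, mem_br]
    constructor
    · rintro ⟨⟨a, b⟩, hp, rfl⟩
      rw [mem_product] at hp
      exact ⟨a.1, mem_map_of_mem _ hp.1, b.1, mem_map_of_mem _ hp.2, rfl⟩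
    · rintro ⟨x, hx, y, hy, rfl⟩
      obtain ⟨a, ha, rfl⟩ := mem_map.1 hx
      obtain ⟨b, hb, rfl⟩ := mem_map.1 hy
      exact ⟨(a, b), mem_product.2 ⟨ha, hb⟩, rfl⟩
  rw [← h3] at h2
  exact acy_transport _ h2

/-- PLANE BICHROMATIC SPANNING TREES with prescribed degrees in `B`. -/
theorem tree_of_hz {cross : Sym2 V → Sym2 V → Prop} (hsymm : ∀ e f, cross e f → cross f e)
    (hadj : ∀ a b c, ¬ cross s(a, b) s(a, c)) (hZ : ∀ W : Finset V, HZ cross W)
    {A B : Finset V} (hAB : Disjoint A B) (hU : A ∪ B = univ) (hA : A.Nonempty) (hB : B.Nonempty)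
    (d : V → ℕ) (h1 : ∀ b ∈ B, 1 ≤ d b) (hd : ∑ b ∈ B, d b + 1 = Fintype.card V) :
    ∃ G : SimpleGraph V, G.IsTree ∧ (∀ e ∈ G.edgeSet, ∀ f ∈ G.edgeSet, ¬ cross e f) ∧
      (∀ u v, G.Adj u v → (u ∈ A ∧ v ∈ B) ∨ (u ∈ B ∧ v ∈ A)) ∧
      ∀ b ∈ B, (G.neighborSet b).ncard = d b := by
  classical
  have nA : Nonempty A := hA.to_subtype
  have nB : Nonempty B := hB.to_subtype
  have hcard : ∑ b : B, d b + 1 = Fintype.card A + Fintype.card B := by
    rw [Fintype.card_coe, Fintype.card_coe, ← Finset.card_union_of_disjoint hAB, hU, card_univ, ← hd,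
      Finset.sum_coe_sort B]
  obtain ⟨P, hpl, htree, -, hdeg⟩ := tree_deg (α := A) (β := B)
    (cross := fun p q : A × B => cross s(p.1.1, p.2.1) s(q.1.1, q.2.1))
    (fun a b b' => hadj _ _ _) (fun a a' b hx => by
      apply hadj b.1 a.1 a'.1
      rw [Sym2.eq_swap (a := b.1) (b := a.1), Sym2.eq_swap (a := b.1) (b := a'.1)]
      exact hx) (acyc_of_hz hsymm hZ hAB) (fun b => d b) (fun b => h1 b b.2) hcard
  -- the bijection
  have hbij : Function.Bijective (Sum.elim (fun a : A => (a : V)) (fun b : B => (b : V))) := by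
    constructor
    · rintro (a | b) (a' | b') h
      · have : (a : V) = a' := h
        rw [Subtype.ext this]
      · have h2 : (a : V) = b' := h
        exact absurd b'.2 (disjoint_left.1 hAB (h2 ▸ a.2))
      · have h2 : (b : V) = a' := h
        exact absurd b.2 (disjoint_left.1 hAB (h2 ▸ a'.2))
      · have : (b : V) = b' := h
        rw [Subtype.ext this]
    · intro v
      have hv : v ∈ A ∪ B := by rw [hU]; exact mem_univ v
      rcases mem_union.1 hv with h | h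
      · exact ⟨Sum.inl ⟨v, h⟩, rfl⟩
      · exact ⟨Sum.inr ⟨v, h⟩, rfl⟩
  obtain ⟨φ, hφ⟩ : ∃ φ : A ⊕ B ≃ V, ∀ z, φ z = Sum.elim (fun a : A => (a : V)) (fun b : B => (b : V)) z :=
    ⟨Equiv.ofBijective _ hbij, fun z => rfl⟩
  have hl : ∀ a : A, φ (Sum.inl a) = a := fun a => hφ _
  have hr : ∀ b : B, φ (Sum.inr b) = b := fun b => hφ _
  have hadj' : ∀ u v, ((gr P).map φ.toEmbedding).Adj u v ↔
      ∃ e ∈ P, (u = (e.1 : V) ∧ v = (e.2 : V)) ∨ (u = (e.2 : V) ∧ v = (e.1 : V)) := by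
    intro u v
    rw [SimpleGraph.map_adj]
    constructor
    · rintro ⟨x, y, ⟨e, he, ⟨rfl, rfl⟩ | ⟨rfl, rfl⟩⟩, rfl, rfl⟩
      · exact ⟨e, he, Or.inl ⟨hl _, hr _⟩⟩
      · exact ⟨e, he, Or.inr ⟨hr _, hl _⟩⟩
    · rintro ⟨e, he, ⟨rfl, rfl⟩ | ⟨rfl, rfl⟩⟩
      · exact ⟨Sum.inl e.1, Sum.inr e.2, ⟨e, he, Or.inl ⟨rfl, rfl⟩⟩, hl _, hr _⟩
      · exact ⟨Sum.inr e.2, Sum.inl e.1, ⟨e, he, Or.inr ⟨rfl, rfl⟩⟩, hr _, hl _⟩
  have hedge : ∀ e ∈ ((gr P).map φ.toEmbedding).edgeSet, ∃ g ∈ P, e = s((g.1 : V), (g.2 : V)) := by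
    intro e
    induction e with
    | _ u v =>
      intro he
      rw [SimpleGraph.mem_edgeSet, hadj'] at he
      obtain ⟨g, hg, ⟨rfl, rfl⟩ | ⟨rfl, rfl⟩⟩ := he
      · exact ⟨g, hg, rfl⟩
      · exact ⟨g, hg, Sym2.eq_swap⟩
  refine ⟨(gr P).map φ.toEmbedding, (SimpleGraph.Iso.map φ (gr P)).isTree_iff.1 htree, ?_, ?_, ?_⟩
  · intro e he f hf
    obtain ⟨g, hg, rfl⟩ := hedge e he
    obtain ⟨g', hg', rfl⟩ := hedge f hf
    exact hpl g hg g' hg'
  · intro u v huv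
    obtain ⟨e, he, ⟨rfl, rfl⟩ | ⟨rfl, rfl⟩⟩ := (hadj' u v).1 huv
    · exact Or.inl ⟨e.1.2, e.2.2⟩
    · exact Or.inr ⟨e.2.2, e.1.2⟩
  · intro b hb
    rw [← hdeg ⟨b, hb⟩]
    have h2 : ((gr P).map φ.toEmbedding).neighborSet b =
        (fun e : A × B => (e.1 : V)) '' ((P.filter fun e => e.2 = ⟨b, hb⟩ : Finset (A × B)) : Set (A × B)) := by
      ext v
      rw [SimpleGraph.mem_neighborSet, hadj', Set.mem_image]
      constructor
      · rintro ⟨e, he, ⟨h3, rfl⟩ | ⟨h3, rfl⟩⟩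
        · exact absurd hb (disjoint_left.1 hAB (h3 ▸ e.1.2))
        · exact ⟨e, by rw [mem_coe, mem_filter]; exact ⟨he, Subtype.ext h3.symm⟩, rfl⟩
      · rintro ⟨e, he, rfl⟩
        rw [mem_coe, mem_filter] at he
        exact ⟨e, he.1, Or.inr ⟨by rw [he.2], rfl⟩⟩
    rw [h2, Set.ncard_image_of_injOn, Set.ncard_coe_finset]
    rintro ⟨a, c⟩ he ⟨a', c'⟩ he' h3
    rw [mem_coe, mem_filter] at he he'
    have h4 : (a : V) = a' := h3
    have h5 : c = ⟨b, hb⟩ := he.2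
    have h6 : c' = ⟨b, hb⟩ := he'.2
    rw [h5, h6, Subtype.ext h4]

end H96T
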