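import Pool.Agent.Lib.H96T.T2
import Pool.Agent.Lib.H63L.FIN

/-!
# H96T, file T3: plane bichromatic spanning trees in simple drawings, from (Z)
-/

set_option autoImplicit false

open H53P SimpleDraw

namespace H96T

/-- If (Z) holds in the table of `D` for all vertex sets: for every partition of the vertices into
nonempty sets `A`, `B` and all `d b ≥ 1` with sum `n - 1` there is a plane spanning tree, all edges
between `A` and `B`, in which each `b ∈ B` has degree `d b`. -/
theorem tree_drawing {n : ℕ} (D : SimpleDrawing n)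
    (hZ : ∀ W : Finset (Fin n), H98Z.HZ (crossT (table D)) W) (A B : Finset (Fin n))
    (hAB : Disjoint A B) (hU : A ∪ B = Finset.univ) (hA : A.Nonempty) (hB : B.Nonempty)
    (d : Fin n → ℕ) (h1 : ∀ b ∈ B, 1 ≤ d b) (hd : ∑ b ∈ B, d b = n - 1) :
    ∃ G : SimpleGraph (Fin n), G.IsTree ∧ D.Plane G ∧
      (∀ u v, G.Adj u v → (u ∈ A ∧ v ∈ B) ∨ (u ∈ B ∧ v ∈ A)) ∧
      ∀ b ∈ B, (G.neighborSet b).ncard = d b := by
  classical
  have hn : 0 < n := by
    obtain ⟨a, -⟩ := hA
    exact a.pos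
  obtain ⟨G, hT, hP, hb, hdeg⟩ := tree_of_hz (crossT_symm (table D)) (crossT_adj (table D)) hZ hAB hU
    hA hB d h1 (by rw [hd, Fintype.card_fin]; omega)
  refine ⟨G, hT, ?_, hb, hdeg⟩
  apply H63L.plane_of_table
  intro i j k l hij hkl
  rw [← Bool.not_eq_true, ← crossT_mk]
  exact hP _ ((SimpleGraph.mem_edgeSet G).2 hij) _ ((SimpleGraph.mem_edgeSet G).2 hkl)

end H96T
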